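import Mathlib

/-!
# Weakly spreading linear triple systems have at least `1.01 n` triples for large `n`
-/

namespace Pool.Agent.Results.MP_9978f8_co.AboveOne

open Finset

variable {n : ℕ}

/-- A linear triple system: all members have three elements and two different members share at
most one vertex. -/
def LinearTS (F : Finset (Finset (Fin n))) : Prop :=
  (∀ T ∈ F, T.card = 3) ∧ ∀ T ∈ F, ∀ T' ∈ F, T ≠ T' → (T ∩ T').card ≤ 1

/-- The neighbourhood `N(W)`. -/
def nbhd (F : Finset (Finset (Fin n))) (W : Finset (Fin n)) : Finset (Fin n) :=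
  univ.filter fun z => z ∉ W ∧ ∃ x ∈ W, ∃ y ∈ W, x ≠ y ∧ ({x, y, z} : Finset (Fin n)) ∈ F

/-- The closure of `W₀`: the smallest `W ⊇ W₀` with `N(W) = ∅` (the intersection of all such
sets `W`). -/
def cl (F : Finset (Finset (Fin n))) (W₀ : Finset (Fin n)) : Finset (Fin n) :=
  univ.filter fun v => ∀ W : Finset (Fin n), W₀ ⊆ W → nbhd F W = ∅ → v ∈ W

/-- Weakly spreading: the closure of the union of any at least two members is everything; by
convention there are at least two members. -/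
def WeaklySpreading (F : Finset (Finset (Fin n))) : Prop :=
  2 ≤ F.card ∧ ∀ F' ⊆ F, 2 ≤ F'.card → cl F (F'.biUnion id) = univ

/-- `ξ_wsp(n)`, the minimum number of triples (infimum in the extended naturals). -/
noncomputable def xi (n : ℕ) : ℕ∞ :=
  ⨅ (F : Finset (Finset (Fin n))) (_ : LinearTS F) (_ : WeaklySpreading F), (F.card : ℕ∞)

/-- Sanity check: the closure of `W₀` contains `W₀` and has empty neighbourhood. -/
lemma cl_spec (F : Finset (Finset (Fin n))) (W₀ : Finset (Fin n)) :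
    W₀ ⊆ cl F W₀ ∧ nbhd F (cl F W₀) = ∅ := by
  constructor
  · intro v hv
    simp only [cl, mem_filter, mem_univ, true_and]
    exact fun W h _ => h hv
  · rw [eq_empty_iff_forall_notMem]
    intro z hz
    simp only [nbhd, mem_filter, mem_univ, true_and] at hz
    obtain ⟨hz1, x, hx, y, hy, hxy, hT⟩ := hz
    apply hz1
    simp only [cl, mem_filter, mem_univ, true_and] at hx hy ⊢
    intro W hW hWn
    by_contra hzW
    have : z ∈ nbhd F W := by
      simp only [nbhd, mem_filter, mem_univ, true_and]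
      exact ⟨hzW, x, hx W hW hWn, y, hy W hW hWn, hxy, hT⟩
    rw [hWn] at this
    simp at this

/-! ### Basic facts -/

section facts

variable {F : Finset (Finset (Fin n))}

/-- The triples through `v`. -/
def star (F : Finset (Finset (Fin n))) (v : Fin n) : Finset (Finset (Fin n)) :=
  F.filter fun T => v ∈ T

/-- The triples through `u` and `v`. -/
def join (F : Finset (Finset (Fin n))) (u v : Fin n) : Finset (Finset (Fin n)) :=
  F.filter fun T => u ∈ T ∧ v ∈ T

lemma mem_star {v : Fin n} {T : Finset (Fin n)} : T ∈ star F v ↔ T ∈ F ∧ v ∈ T := mem_filter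

lemma mem_join {u v : Fin n} {T : Finset (Fin n)} : T ∈ join F u v ↔ T ∈ F ∧ u ∈ T ∧ v ∈ T :=
  mem_filter

lemma eq_of_two (hF : LinearTS F) {T T' : Finset (Fin n)} (hT : T ∈ F) (hT' : T' ∈ F)
    {u v : Fin n} (huv : u ≠ v) (h1 : u ∈ T) (h2 : v ∈ T) (h3 : u ∈ T') (h4 : v ∈ T') :
    T = T' := by
  by_contra hne
  have h5 := hF.2 T hT T' hT' hne
  have h6 : ({u, v} : Finset (Fin n)) ⊆ T ∩ T' := by
    intro w hw
    rw [mem_insert, mem_singleton] at hw
    rcases hw with rfl | rfl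
    · exact mem_inter.2 ⟨h1, h3⟩
    · exact mem_inter.2 ⟨h2, h4⟩
  have h7 := card_le_card h6
  rw [card_pair huv] at h7
  omega

lemma join_card (hF : LinearTS F) {u v : Fin n} (huv : u ≠ v) : (join F u v).card ≤ 1 := by
  rw [card_le_one]
  intro T hT T' hT'
  rw [mem_join] at hT hT'
  exact eq_of_two hF hT.1 hT'.1 huv hT.2.1 hT.2.2 hT'.2.1 hT'.2.2

lemma bu {α β : Type} [DecidableEq β] {s : Finset α} {f : α → Finset β} {a b : ℕ}
    (hs : s.card ≤ a) (hf : ∀ x ∈ s, (f x).card ≤ b) : (s.biUnion f).card ≤ a * b :=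
  (card_biUnion_le_card_mul s f b hf).trans (Nat.mul_le_mul_right b hs)

/-- A proper superset of the union of two triples has a neighbour. -/
lemma exists_nbr (hw : WeaklySpreading F) {T1 T2 : Finset (Fin n)} (h1 : T1 ∈ F) (h2 : T2 ∈ F)
    (hne : T1 ≠ T2) {W : Finset (Fin n)} (hW : T1 ∪ T2 ⊆ W) (hn : W.card < n) :
    ∃ T ∈ F, ∃ x y z, x ∈ T ∧ y ∈ T ∧ z ∈ T ∧ x ∈ W ∧ y ∈ W ∧ z ∉ W ∧ x ≠ y ∧ T = {x, y, z} := by
  by_contra hcon
  have h3 : nbhd F W = ∅ := by
    rw [eq_empty_iff_forall_notMem]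
    intro z hz
    simp only [nbhd, mem_filter, mem_univ, true_and] at hz
    obtain ⟨hzW, x, hx, y, hy, hxy, hT⟩ := hz
    exact hcon ⟨_, hT, x, y, z, by simp, by simp, by simp, hx, hy, hzW, hxy, rfl⟩
  have h4 := hw.2 {T1, T2} (by
    intro T hT
    rw [mem_insert, mem_singleton] at hT
    rcases hT with rfl | rfl <;> assumption) (by rw [card_pair hne])
  have h5 : W = univ := by
    rw [eq_univ_iff_forall]
    intro v
    have h6 : v ∈ cl F (({T1, T2} : Finset (Finset (Fin n))).biUnion id) := by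
      rw [h4]; exact mem_univ _
    simp only [cl, mem_filter, mem_univ, true_and] at h6
    apply h6 W _ h3
    intro w hw'
    rw [mem_biUnion] at hw'
    obtain ⟨T, hT, hwT⟩ := hw'
    rw [mem_insert, mem_singleton] at hT
    apply hW
    rw [mem_union]
    rcases hT with rfl | rfl
    · exact Or.inl hwT
    · exact Or.inr hwT
  rw [h5, card_univ, Fintype.card_fin] at hn
  exact lt_irrefl _ hn

/-- A triple connecting `T1` and `T2`. -/
structure Conn (F : Finset (Finset (Fin n))) (T1 T2 T : Finset (Fin n)) (a b z : Fin n) : Prop where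
  mem : T ∈ F
  ha : a ∈ T1
  hb : b ∈ T2
  haT : a ∈ T
  hbT : b ∈ T
  hzT : z ∈ T
  hz1 : z ∉ T1
  hz2 : z ∉ T2
  hab : a ≠ b
  eq : T = {a, b, z}

/-- A triple with two vertices in `T1 ∪ T2` and one outside is connecting. -/
lemma conn_of_nbr (hF : LinearTS F) {T1 T2 T : Finset (Fin n)} (h1 : T1 ∈ F) (h2 : T2 ∈ F)
    (hT : T ∈ F) {x y z : Fin n} (hxT : x ∈ T) (hyT : y ∈ T) (hzT : z ∈ T) (hx : x ∈ T1 ∪ T2)
    (hy : y ∈ T1 ∪ T2) (hz : z ∉ T1 ∪ T2) (hxy : x ≠ y) (heq : T = {x, y, z}) :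
    ∃ a b, Conn F T1 T2 T a b z ∧ ((a = x ∧ b = y) ∨ (a = y ∧ b = x)) := by
  rw [mem_union, not_or] at hz
  have hne1 : T ≠ T1 := fun h => hz.1 (h ▸ hzT)
  have hne2 : T ≠ T2 := fun h => hz.2 (h ▸ hzT)
  rw [mem_union] at hx hy
  rcases hx with hx | hx <;> rcases hy with hy | hy
  · exact absurd (eq_of_two hF hT h1 hxy hxT hyT hx hy) hne1
  · exact ⟨x, y, ⟨hT, hx, hy, hxT, hyT, hzT, hz.1, hz.2, hxy, heq⟩, Or.inl ⟨rfl, rfl⟩⟩
  · exact ⟨y, x, ⟨hT, hy, hx, hyT, hxT, hzT, hz.1, hz.2, hxy.symm,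
      by rw [heq, insert_comm]⟩, Or.inr ⟨rfl, rfl⟩⟩
  · exact absurd (eq_of_two hF hT h2 hxy hxT hyT hx hy) hne2

lemma union_card (hF : LinearTS F) {T1 T2 : Finset (Fin n)} (h1 : T1 ∈ F) (h2 : T2 ∈ F) :
    (T1 ∪ T2).card ≤ 6 := by
  have := card_union_le T1 T2
  rw [hF.1 T1 h1, hF.1 T2 h2] at this
  exact this

/-- The neighbourhood of `T1 ∪ T2` has at most nine elements. -/
lemma nbhd_card (hF : LinearTS F) {T1 T2 : Finset (Fin n)} (h1 : T1 ∈ F) (h2 : T2 ∈ F)
    (hd : Disjoint T1 T2) : (nbhd F (T1 ∪ T2)).card ≤ 27 := by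
  have hsub : nbhd F (T1 ∪ T2) ⊆ T1.biUnion fun a => T2.biUnion fun b =>
      (join F a b).biUnion fun T => T := by
    intro z hz
    simp only [nbhd, mem_filter, mem_univ, true_and] at hz
    obtain ⟨hz1, x, hx, y, hy, hxy, hT⟩ := hz
    obtain ⟨a, b, hc, _⟩ := conn_of_nbr hF h1 h2 hT (x := x) (y := y) (z := z) (by simp) (by simp)
      (by simp) hx hy hz1 hxy rfl
    rw [mem_biUnion]
    refine ⟨a, hc.ha, ?_⟩
    rw [mem_biUnion]
    refine ⟨b, hc.hb, ?_⟩
    rw [mem_biUnion]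
    exact ⟨_, mem_join.2 ⟨hc.mem, hc.haT, hc.hbT⟩, hc.hzT⟩
  refine (card_le_card hsub).trans ?_
  have := bu (s := T1) (a := 3) (b := 3 * (1 * 3)) (hF.1 T1 h1).le
    (f := fun a => T2.biUnion fun b => (join F a b).biUnion fun T => T) (by
      intro a ha
      refine bu (hF.1 T2 h2).le ?_
      intro b hb
      refine bu (join_card hF (fun h => ?_)) ?_
      · exact (Finset.disjoint_left.1 hd) ha (h ▸ hb)
      · intro T hT
        exact (hF.1 T (mem_join.1 hT).1).le)
  exact this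

/-- Bound on the degrees. -/
lemma deg_bound (hF : LinearTS F) (hw : WeaklySpreading F) (hn : 6 < n) (v : Fin n) :
    (star F v).card * (star F v).card - (star F v).card ≤ 6 * F.card := by
  classical
  rw [← offDiag_card]
  have hsub : (star F v).offDiag ⊆ (F.filter fun T => v ∉ T).biUnion fun T =>
      T.offDiag.biUnion fun p => (if p.1 = v ∨ p.2 = v then ∅ else
        (join F v p.1) ×ˢ (join F v p.2)) := by
    rintro ⟨T1, T2⟩ hT
    rw [mem_offDiag, mem_star, mem_star] at hT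
    obtain ⟨⟨h1, hv1⟩, ⟨h2, hv2⟩, hne⟩ := hT
    simp only at h1 h2 hv1 hv2 hne
    obtain ⟨T, hT, x, y, z, hxT, hyT, hzT, hx, hy, hz, hxy, heq⟩ :=
      exists_nbr hw h1 h2 hne (subset_refl _) (lt_of_le_of_lt (union_card hF h1 h2) hn)
    obtain ⟨a, b, hc, _⟩ := conn_of_nbr hF h1 h2 hT hxT hyT hzT hx hy hz hxy heq
    have hvT : v ∉ T := by
      intro h
      by_cases hav : a = v
      · have hbv : b ≠ v := fun h' => hc.hab (hav.trans h'.symm)
        have := eq_of_two hF hc.mem h2 hbv hc.hbT h hc.hb hv2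
        exact hc.hz2 (this ▸ hc.hzT)
      · have := eq_of_two hF hc.mem h1 hav hc.haT h hc.ha hv1
        exact hc.hz1 (this ▸ hc.hzT)
    have hav : a ≠ v := fun h => hvT (h ▸ hc.haT)
    have hbv : b ≠ v := fun h => hvT (h ▸ hc.hbT)
    rw [mem_biUnion]
    refine ⟨T, mem_filter.2 ⟨hc.mem, hvT⟩, ?_⟩
    rw [mem_biUnion]
    refine ⟨(a, b), mem_offDiag.2 ⟨hc.haT, hc.hbT, hc.hab⟩, ?_⟩
    rw [if_neg (by simp only [not_or]; exact ⟨hav, hbv⟩), mem_product]
    exact ⟨mem_join.2 ⟨h1, hv1, hc.ha⟩, mem_join.2 ⟨h2, hv2, hc.hb⟩⟩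
  refine (card_le_card hsub).trans ?_
  have := bu (s := F.filter fun T => v ∉ T) (a := F.card) (b := 6 * 1) (card_filter_le _ _)
    (f := fun T => T.offDiag.biUnion fun p => (if p.1 = v ∨ p.2 = v then ∅ else
        (join F v p.1) ×ˢ (join F v p.2))) (by
      intro T hT
      have hT3 := hF.1 T (mem_filter.1 hT).1
      refine bu ?_ ?_
      · rw [offDiag_card, hT3]
      · intro p hp
        split_ifs with h
        · simp
        · push Not at h
          rw [card_product]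
          exact Nat.mul_le_mul (join_card hF h.1.symm) (join_card hF h.2.symm))
  rw [Nat.mul_comm 6]
  simpa using this

end facts

/-! ### The exceptional pairs -/

section pairs

variable (F : Finset (Finset (Fin n))) (K : ℕ)

/-- A vertex is low if its degree is at most `K`. -/
def Low (v : Fin n) : Prop := (star F v).card ≤ K

instance (v : Fin n) : Decidable (Low F K v) := by unfold Low; infer_instance

/-- `join`, but empty for equal vertices. -/
def join' (u v : Fin n) : Finset (Finset (Fin n)) := if u = v then ∅ else join F u v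

/-- Pairs with a common vertex. -/
def E0 : Finset (Finset (Fin n) × Finset (Fin n)) :=
  F.biUnion fun T1 => T1.biUnion fun v => (star F v).image fun T2 => (T1, T2)

/-- See the outline. -/
def E1 : Finset (Finset (Fin n) × Finset (Fin n)) :=
  F.biUnion fun T1 => (T1.filter fun x => Low F K x).biUnion fun x => (star F x).biUnion fun T =>
    T.biUnion fun b => (star F b).image fun T2 => (T1, T2)

/-- See the outline. -/
def E2 : Finset (Finset (Fin n) × Finset (Fin n)) :=
  F.biUnion fun T => (T.filter fun z => Low F K z).biUnion fun z => (star F z).biUnion fun T' =>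
    T'.biUnion fun w => T.biUnion fun a => T.biUnion fun b => (join' F a w) ×ˢ (star F b)

/-- See the outline. -/
def E3 : Finset (Finset (Fin n) × Finset (Fin n)) :=
  F.biUnion fun T => (T.filter fun z => Low F K z).biUnion fun z => (star F z).biUnion fun T' =>
    (T'.filter fun y => Low F K y).biUnion fun y => (star F y).biUnion fun T'' =>
      T.biUnion fun a => T''.biUnion fun a' => T.biUnion fun b => (join' F a a') ×ˢ (star F b)

/-- See the outline. -/
def E4 : Finset (Finset (Fin n) × Finset (Fin n)) :=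
  F.biUnion fun T1 => (T1.filter fun w => Low F K w).biUnion fun w => (star F w).biUnion fun T' =>
    T'.biUnion fun z => T1.biUnion fun a => (join' F a z).biUnion fun T => T.biUnion fun b =>
      (star F b).image fun T2 => (T1, T2)

/-- The triples without low vertices. -/
def High : Finset (Finset (Fin n)) := F.filter fun T => ∀ v ∈ T, ¬ Low F K v

/-- Pairs met by a triple without low vertices. -/
def R : Finset (Finset (Fin n) × Finset (Fin n)) :=
  (High F K).biUnion fun T => (T.biUnion (star F)) ×ˢ (T.biUnion (star F))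

/-- The triples with at most one vertex that is not low. -/
def Few : Finset (Finset (Fin n)) := F.filter fun T => (T.filter fun v => ¬ Low F K v).card ≤ 1

/-- A set of pairs together with the reversed pairs. -/
def sym (E : Finset (Finset (Fin n) × Finset (Fin n))) :
    Finset (Finset (Fin n) × Finset (Fin n)) := E ∪ E.image Prod.swap

variable {F K}

lemma sym_card {E : Finset (Finset (Fin n) × Finset (Fin n))} {b : ℕ} (h : E.card ≤ b) :
    (sym E).card ≤ 2 * b := by
  unfold sym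
  refine (card_union_le _ _).trans ?_
  have := card_image_le (s := E) (f := Prod.swap)
  omega

lemma mem_sym_left {E : Finset (Finset (Fin n) × Finset (Fin n))} {T1 T2 : Finset (Fin n)}
    (h : (T1, T2) ∈ E) : (T1, T2) ∈ sym E := mem_union_left _ h

lemma mem_sym_right {E : Finset (Finset (Fin n) × Finset (Fin n))} {T1 T2 : Finset (Fin n)}
    (h : (T2, T1) ∈ E) : (T1, T2) ∈ sym E :=
  mem_union_right _ (mem_image.2 ⟨_, h, rfl⟩)

lemma join'_card (hF : LinearTS F) (u v : Fin n) : (join' F u v).card ≤ 1 := by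
  unfold join'
  split_ifs with h
  · simp
  · exact join_card hF h

variable {D : ℕ}

lemma E0_card (hF : LinearTS F) (hD : ∀ v, (star F v).card ≤ D) :
    (E0 F).card ≤ F.card * (3 * D) :=
  bu le_rfl fun T1 h1 => bu (hF.1 T1 h1).le fun v _ => card_image_le.trans (hD v)

lemma E1_card (hF : LinearTS F) (hD : ∀ v, (star F v).card ≤ D) :
    (E1 F K).card ≤ F.card * (3 * (K * (3 * D))) :=
  bu le_rfl fun T1 h1 => bu ((card_filter_le _ _).trans (hF.1 T1 h1).le) fun _ hx =>
    bu (mem_filter.1 hx).2 fun T hT => bu (hF.1 T (mem_star.1 hT).1).le fun b _ =>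
      card_image_le.trans (hD b)

lemma E2_card (hF : LinearTS F) (hD : ∀ v, (star F v).card ≤ D) :
    (E2 F K).card ≤ F.card * (3 * (K * (3 * (3 * (3 * (1 * D)))))) :=
  bu le_rfl fun T hT => bu ((card_filter_le _ _).trans (hF.1 T hT).le) fun _ hz =>
    bu (mem_filter.1 hz).2 fun T' hT' => bu (hF.1 T' (mem_star.1 hT').1).le fun w _ =>
      bu (hF.1 T hT).le fun a _ => bu (hF.1 T hT).le fun b _ => by
        rw [card_product]
        exact Nat.mul_le_mul (join'_card hF a w) (hD b)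

lemma E3_card (hF : LinearTS F) (hD : ∀ v, (star F v).card ≤ D) :
    (E3 F K).card ≤ F.card * (3 * (K * (3 * (K * (3 * (3 * (3 * (1 * D)))))))) :=
  bu le_rfl fun T hT => bu ((card_filter_le _ _).trans (hF.1 T hT).le) fun _ hz =>
    bu (mem_filter.1 hz).2 fun T' hT' =>
      bu ((card_filter_le _ _).trans (hF.1 T' (mem_star.1 hT').1).le) fun _ hy =>
        bu (mem_filter.1 hy).2 fun T'' hT'' => bu (hF.1 T hT).le fun a _ =>
          bu (hF.1 T'' (mem_star.1 hT'').1).le fun a' _ => bu (hF.1 T hT).le fun b _ => by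
            rw [card_product]
            exact Nat.mul_le_mul (join'_card hF a a') (hD b)

lemma mem_join' {u v : Fin n} {T : Finset (Fin n)} (h : T ∈ join' F u v) : T ∈ F := by
  unfold join' at h
  split_ifs at h
  · simp at h
  · exact (mem_join.1 h).1

lemma E4_card (hF : LinearTS F) (hD : ∀ v, (star F v).card ≤ D) :
    (E4 F K).card ≤ F.card * (3 * (K * (3 * (3 * (1 * (3 * D)))))) :=
  bu le_rfl fun T1 h1 => bu ((card_filter_le _ _).trans (hF.1 T1 h1).le) fun _ hw =>
    bu (mem_filter.1 hw).2 fun T' hT' => bu (hF.1 T' (mem_star.1 hT').1).le fun z _ =>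
      bu (hF.1 T1 h1).le fun a _ => bu (join'_card hF a z) fun T hT =>
        bu (hF.1 T (mem_join' hT)).le fun b _ => card_image_le.trans (hD b)

lemma R_card (hF : LinearTS F) (hD : ∀ v, (star F v).card ≤ D) :
    (R F K).card ≤ (High F K).card * ((3 * D) * (3 * D)) :=
  bu le_rfl fun T hT => by
    rw [card_product]
    have h3 := (hF.1 T (mem_filter.1 hT).1).le
    exact Nat.mul_le_mul (bu h3 fun v _ => hD v) (bu h3 fun v _ => hD v)

/-- The common part of the two classifications: two disjoint triples `T1`, `T2`; there are a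
connecting triple `T = {a, b, y}` and a triple `T' ∋ x, y, z` where `x ∈ T1 ∪ T2 ∪ N(T1 ∪ T2)` and
`z` is outside. -/
lemma second_step (hF : LinearTS F) (hw : WeaklySpreading F) (hn : 33 < n)
    {T1 T2 : Finset (Fin n)} (h1 : T1 ∈ F) (h2 : T2 ∈ F) (hne : T1 ≠ T2)
    (hd : Disjoint T1 T2) :
    ∃ T a b y T' x z, Conn F T1 T2 T a b y ∧ T' ∈ F ∧ x ∈ T' ∧ y ∈ T' ∧ z ∈ T' ∧ x ≠ y ∧
      z ∉ T ∧ (x ∈ T1 ∨ x ∈ T2 ∨ ∃ T'' a' b', Conn F T1 T2 T'' a' b' x) := by
  have hcard : ((T1 ∪ T2) ∪ nbhd F (T1 ∪ T2)).card < n := by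
    refine lt_of_le_of_lt ((card_union_le _ _).trans (Nat.add_le_add (union_card hF h1 h2)
      (nbhd_card hF h1 h2 hd))) hn
  obtain ⟨T', hT', x, y, z, hxT, hyT, hzT, hx, hy, hz, hxy, heq⟩ :=
    exists_nbr hw h1 h2 hne (subset_union_left) hcard
  rw [mem_union, not_or] at hz
  have hconn : ∀ w, w ∈ nbhd F (T1 ∪ T2) → ∃ T a b, Conn F T1 T2 T a b w := by
    intro w hw'
    simp only [nbhd, mem_filter, mem_univ, true_and] at hw'
    obtain ⟨hw1, p, hp, q, hq, hpq, hT⟩ := hw'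
    obtain ⟨a, b, hc, _⟩ := conn_of_nbr hF h1 h2 hT (x := p) (y := q) (z := w) (by simp) (by simp)
      (by simp) hp hq hw1 hpq rfl
    exact ⟨_, a, b, hc⟩
  have hnotT : ∀ T a b w, Conn F T1 T2 T a b w → z ∉ T := by
    intro T a b w hc hzT'
    have hz1 := hz.1
    rw [mem_union, not_or] at hz1
    rw [hc.eq] at hzT'
    simp only [mem_insert, mem_singleton] at hzT'
    rcases hzT' with h | h | h
    · exact hz1.1 (h ▸ hc.ha)
    · exact hz1.2 (h ▸ hc.hb)
    · -- `z = w` is a neighbour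
      apply hz.2
      simp only [nbhd, mem_filter, mem_univ, true_and]
      refine ⟨hz.1, a, mem_union_left _ hc.ha, b, mem_union_right _ hc.hb, hc.hab, ?_⟩
      rw [h, ← hc.eq]
      exact hc.mem
  have hcases : ∀ w, w ∈ (T1 ∪ T2) ∪ nbhd F (T1 ∪ T2) →
      (w ∈ T1 ∨ w ∈ T2 ∨ ∃ T'' a' b', Conn F T1 T2 T'' a' b' w) := by
    intro w hw'
    rcases mem_union.1 hw' with h | h
    · rcases mem_union.1 h with h | h
      · exact Or.inl h
      · exact Or.inr (Or.inl h)
    · exact Or.inr (Or.inr (hconn w h))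
  by_cases hyN : y ∈ nbhd F (T1 ∪ T2)
  · obtain ⟨T, a, b, hc⟩ := hconn y hyN
    exact ⟨T, a, b, y, T', x, z, hc, hT', hxT, hyT, hzT, hxy, hnotT T a b y hc, hcases x hx⟩
  · by_cases hxN : x ∈ nbhd F (T1 ∪ T2)
    · obtain ⟨T, a, b, hc⟩ := hconn x hxN
      exact ⟨T, a, b, x, T', y, z, hc, hT', hyT, hxT, hzT, hxy.symm, hnotT T a b x hc,
        hcases y hy⟩
    · -- then `z` is a neighbour of `T1 ∪ T2`
      exfalso
      have hx' : x ∈ T1 ∪ T2 := (mem_union.1 hx).resolve_right hxN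
      have hy' : y ∈ T1 ∪ T2 := (mem_union.1 hy).resolve_right hyN
      apply hz.2
      simp only [nbhd, mem_filter, mem_univ, true_and]
      exact ⟨hz.1, x, hx', y, hy', hxy, heq ▸ hT'⟩

lemma mem_E0 {T1 T2 : Finset (Fin n)} {v : Fin n} (h1 : T1 ∈ F) (h2 : T2 ∈ F) (hv : v ∈ T1)
    (hv' : v ∈ T2) : (T1, T2) ∈ E0 F := by
  unfold E0
  exact mem_biUnion.2 ⟨T1, h1, mem_biUnion.2 ⟨v, hv, mem_image.2 ⟨T2, mem_star.2 ⟨h2, hv'⟩,
    rfl⟩⟩⟩

lemma mem_E1 {T1 T2 T : Finset (Fin n)} {a b : Fin n} (h1 : T1 ∈ F) (h2 : T2 ∈ F) (hT : T ∈ F)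
    (ha : a ∈ T1) (hlow : Low F K a) (haT : a ∈ T) (hbT : b ∈ T) (hb : b ∈ T2) :
    (T1, T2) ∈ E1 F K := by
  unfold E1
  exact mem_biUnion.2 ⟨T1, h1, mem_biUnion.2 ⟨a, mem_filter.2 ⟨ha, hlow⟩, mem_biUnion.2
    ⟨T, mem_star.2 ⟨hT, haT⟩, mem_biUnion.2 ⟨b, hbT, mem_image.2 ⟨T2, mem_star.2 ⟨h2, hb⟩,
      rfl⟩⟩⟩⟩⟩

lemma mem_E2 {T1 T2 T T' : Finset (Fin n)} {a b z w : Fin n} (h1 : T1 ∈ F) (h2 : T2 ∈ F)
    (hT : T ∈ F) (hT' : T' ∈ F) (hz : z ∈ T) (hlow : Low F K z) (hz' : z ∈ T') (hw : w ∈ T')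
    (ha : a ∈ T) (hb : b ∈ T) (haw : a ≠ w) (ha1 : a ∈ T1) (hw1 : w ∈ T1) (hb2 : b ∈ T2) :
    (T1, T2) ∈ E2 F K := by
  unfold E2
  refine mem_biUnion.2 ⟨T, hT, mem_biUnion.2 ⟨z, mem_filter.2 ⟨hz, hlow⟩, mem_biUnion.2
    ⟨T', mem_star.2 ⟨hT', hz'⟩, mem_biUnion.2 ⟨w, hw, mem_biUnion.2 ⟨a, ha, mem_biUnion.2
      ⟨b, hb, mem_product.2 ⟨?_, mem_star.2 ⟨h2, hb2⟩⟩⟩⟩⟩⟩⟩⟩
  unfold join'
  rw [if_neg haw]
  exact mem_join.2 ⟨h1, ha1, hw1⟩

lemma mem_E3 {T1 T2 T T' T'' : Finset (Fin n)} {a b a' z y : Fin n} (h1 : T1 ∈ F) (h2 : T2 ∈ F)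
    (hT : T ∈ F) (hT' : T' ∈ F) (hT'' : T'' ∈ F) (hz : z ∈ T) (hlow : Low F K z) (hz' : z ∈ T')
    (hy : y ∈ T') (hlow' : Low F K y) (hy' : y ∈ T'') (ha : a ∈ T) (ha' : a' ∈ T'')
    (hb : b ∈ T) (haa : a ≠ a') (ha1 : a ∈ T1) (ha1' : a' ∈ T1) (hb2 : b ∈ T2) :
    (T1, T2) ∈ E3 F K := by
  unfold E3
  refine mem_biUnion.2 ⟨T, hT, mem_biUnion.2 ⟨z, mem_filter.2 ⟨hz, hlow⟩, mem_biUnion.2
    ⟨T', mem_star.2 ⟨hT', hz'⟩, mem_biUnion.2 ⟨y, mem_filter.2 ⟨hy, hlow'⟩, mem_biUnion.2
      ⟨T'', mem_star.2 ⟨hT'', hy'⟩, mem_biUnion.2 ⟨a, ha, mem_biUnion.2 ⟨a', ha', mem_biUnion.2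
        ⟨b, hb, mem_product.2 ⟨?_, mem_star.2 ⟨h2, hb2⟩⟩⟩⟩⟩⟩⟩⟩⟩⟩
  unfold join'
  rw [if_neg haa]
  exact mem_join.2 ⟨h1, ha1, ha1'⟩

lemma mem_E4 {T1 T2 T T' : Finset (Fin n)} {a b z w : Fin n} (h1 : T1 ∈ F) (h2 : T2 ∈ F)
    (hT : T ∈ F) (hT' : T' ∈ F) (hw : w ∈ T1) (hlow : Low F K w) (hw' : w ∈ T') (hz : z ∈ T')
    (ha : a ∈ T1) (haz : a ≠ z) (haT : a ∈ T) (hzT : z ∈ T) (hb : b ∈ T) (hb2 : b ∈ T2) :
    (T1, T2) ∈ E4 F K := by
  unfold E4
  refine mem_biUnion.2 ⟨T1, h1, mem_biUnion.2 ⟨w, mem_filter.2 ⟨hw, hlow⟩, mem_biUnion.2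
    ⟨T', mem_star.2 ⟨hT', hw'⟩, mem_biUnion.2 ⟨z, hz, mem_biUnion.2 ⟨a, ha, mem_biUnion.2
      ⟨T, ?_, mem_biUnion.2 ⟨b, hb, mem_image.2 ⟨T2, mem_star.2 ⟨h2, hb2⟩, rfl⟩⟩⟩⟩⟩⟩⟩⟩
  unfold join'
  rw [if_neg haz]
  exact mem_join.2 ⟨hT, haT, hzT⟩

/-- Classification of all pairs. -/
lemma class_all (hF : LinearTS F) (hw : WeaklySpreading F) (hn : 33 < n)
    {T1 T2 : Finset (Fin n)} (h1 : T1 ∈ F) (h2 : T2 ∈ F) (hne : T1 ≠ T2) :
    (T1, T2) ∈ E0 F ∪ sym (E1 F K) ∪ sym (E2 F K) ∪ sym (E3 F K) ∪ R F K := by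
  by_contra hcon
  simp only [mem_union, not_or] at hcon
  obtain ⟨⟨⟨⟨n0, n1⟩, n2⟩, n3⟩, nR⟩ := hcon
  have hd : Disjoint T1 T2 := by
    rw [Finset.disjoint_left]
    intro v hv hv'
    exact n0 (mem_E0 h1 h2 hv hv')
  have hprop : ∀ T a b z, Conn F T1 T2 T a b z → Low F K z := by
    intro T a b z hc
    by_contra hz
    have ha : ¬ Low F K a := fun h =>
      n1 (mem_sym_left (mem_E1 h1 h2 hc.mem hc.ha h hc.haT hc.hbT hc.hb))
    have hb : ¬ Low F K b := fun h =>
      n1 (mem_sym_right (mem_E1 h2 h1 hc.mem hc.hb h hc.hbT hc.haT hc.ha))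
    apply nR
    unfold R
    refine mem_biUnion.2 ⟨T, mem_filter.2 ⟨hc.mem, ?_⟩, mem_product.2 ⟨?_, ?_⟩⟩
    · intro v hv
      rw [hc.eq] at hv
      simp only [mem_insert, mem_singleton] at hv
      rcases hv with rfl | rfl | rfl <;> assumption
    · exact mem_biUnion.2 ⟨a, hc.haT, mem_star.2 ⟨h1, hc.ha⟩⟩
    · exact mem_biUnion.2 ⟨b, hc.hbT, mem_star.2 ⟨h2, hc.hb⟩⟩
  obtain ⟨T, a, b, y, T', x, z, hc, hT', hxT, hyT, hzT, hxy, hzT2, hx⟩ :=
    second_step hF hw hn h1 h2 hne hd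
  have hylow := hprop _ _ _ _ hc
  have hTT' : T ≠ T' := fun h => hzT2 (h ▸ hzT)
  rcases hx with hx | hx | ⟨T'', a', b', hc'⟩
  · have hax : a ≠ x := by
      rintro rfl
      exact hTT' (eq_of_two hF hc.mem hT' hxy hc.haT hc.hzT hxT hyT)
    exact n2 (mem_sym_left (mem_E2 h1 h2 hc.mem hT' hc.hzT hylow hyT hxT hc.haT hc.hbT hax
      hc.ha hx hc.hb))
  · have hbx : b ≠ x := by
      rintro rfl
      exact hTT' (eq_of_two hF hc.mem hT' hxy hc.hbT hc.hzT hxT hyT)
    exact n2 (mem_sym_right (mem_E2 h2 h1 hc.mem hT' hc.hzT hylow hyT hxT hc.hbT hc.haT hbx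
      hc.hb hx hc.ha))
  · have hxlow := hprop _ _ _ _ hc'
    by_cases haa : a = a'
    · have hbb : b ≠ b' := by
        intro hbb
        have h3 := eq_of_two hF hc.mem hc'.mem hc.hab hc.haT hc.hbT (haa ▸ hc'.haT)
          (hbb ▸ hc'.hbT)
        have h4 : x ∈ T := h3 ▸ hc'.hzT
        rw [hc.eq] at h4
        simp only [mem_insert, mem_singleton] at h4
        rcases h4 with h | h | h
        · exact hc'.hz1 (h ▸ hc.ha)
        · exact hc'.hz2 (h ▸ hc.hb)
        · exact hxy h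
      exact n3 (mem_sym_right (mem_E3 h2 h1 hc.mem hT' hc'.mem hc.hzT hylow hyT hxT hxlow
        hc'.hzT hc.hbT hc'.hbT hc.haT hbb hc.hb hc'.hb hc.ha))
    · exact n3 (mem_sym_left (mem_E3 h1 h2 hc.mem hT' hc'.mem hc.hzT hylow hyT hxT hxlow
        hc'.hzT hc.haT hc'.haT hc.hbT haa hc.ha hc'.ha hc.hb))

/-- Classification of the pairs of triples with few high vertices. -/
lemma class_few (hF : LinearTS F) (hw : WeaklySpreading F) (hn : 33 < n)
    {T1 T2 : Finset (Fin n)} (h1 : T1 ∈ Few F K) (h2 : T2 ∈ Few F K) (hne : T1 ≠ T2) :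
    (T1, T2) ∈ E0 F ∪ sym (E1 F K) ∪ sym (E4 F K) := by
  by_contra hcon
  simp only [mem_union, not_or] at hcon
  obtain ⟨⟨n0, n1⟩, n4⟩ := hcon
  obtain ⟨h1, hf1⟩ := mem_filter.1 h1
  obtain ⟨h2, hf2⟩ := mem_filter.1 h2
  have hd : Disjoint T1 T2 := by
    rw [Finset.disjoint_left]
    intro v hv hv'
    exact n0 (mem_E0 h1 h2 hv hv')
  have hprop : ∀ T a b z, Conn F T1 T2 T a b z → ¬ Low F K a ∧ ¬ Low F K b := by
    intro T a b z hc
    exact ⟨fun h => n1 (mem_sym_left (mem_E1 h1 h2 hc.mem hc.ha h hc.haT hc.hbT hc.hb)),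
      fun h => n1 (mem_sym_right (mem_E1 h2 h1 hc.mem hc.hb h hc.hbT hc.haT hc.ha))⟩
  have hu1 : ∀ u v, u ∈ T1 → v ∈ T1 → ¬ Low F K u → ¬ Low F K v → u = v := by
    intro u v hu hv hlu hlv
    exact card_le_one.1 hf1 u (mem_filter.2 ⟨hu, hlu⟩) v (mem_filter.2 ⟨hv, hlv⟩)
  have hu2 : ∀ u v, u ∈ T2 → v ∈ T2 → ¬ Low F K u → ¬ Low F K v → u = v := by
    intro u v hu hv hlu hlv
    exact card_le_one.1 hf2 u (mem_filter.2 ⟨hu, hlu⟩) v (mem_filter.2 ⟨hv, hlv⟩)
  obtain ⟨T, a, b, y, T', x, z, hc, hT', hxT, hyT, hzT, hxy, hzT2, hx⟩ :=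
    second_step hF hw hn h1 h2 hne hd
  obtain ⟨hla, hlb⟩ := hprop _ _ _ _ hc
  have hTT' : T ≠ T' := fun h => hzT2 (h ▸ hzT)
  have hay : a ≠ y := fun h => hc.hz1 (h ▸ hc.ha)
  have hby : b ≠ y := fun h => hc.hz2 (h ▸ hc.hb)
  rcases hx with hx | hx | ⟨T'', a', b', hc'⟩
  · have hax : a ≠ x := by
      rintro rfl
      exact hTT' (eq_of_two hF hc.mem hT' hxy hc.haT hc.hzT hxT hyT)
    have hxlow : Low F K x := by
      by_contra h
      exact hax (hu1 a x hc.ha hx hla h)
    exact n4 (mem_sym_left (mem_E4 h1 h2 hc.mem hT' hx hxlow hxT hyT hc.ha hay hc.haT hc.hzT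
      hc.hbT hc.hb))
  · have hbx : b ≠ x := by
      rintro rfl
      exact hTT' (eq_of_two hF hc.mem hT' hxy hc.hbT hc.hzT hxT hyT)
    have hxlow : Low F K x := by
      by_contra h
      exact hbx (hu2 b x hc.hb hx hlb h)
    exact n4 (mem_sym_right (mem_E4 h2 h1 hc.mem hT' hx hxlow hxT hyT hc.hb hby hc.hbT hc.hzT
      hc.haT hc.ha))
  · obtain ⟨hla', hlb'⟩ := hprop _ _ _ _ hc'
    have haa := hu1 a a' hc.ha hc'.ha hla hla'
    have hbb := hu2 b b' hc.hb hc'.hb hlb hlb'
    have h3 := eq_of_two hF hc.mem hc'.mem hc.hab hc.haT hc.hbT (haa ▸ hc'.haT)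
      (hbb ▸ hc'.hbT)
    have h4 : x ∈ T := h3 ▸ hc'.hzT
    rw [hc.eq] at h4
    simp only [mem_insert, mem_singleton] at h4
    rcases h4 with h | h | h
    · exact hc'.hz1 (h ▸ hc.ha)
    · exact hc'.hz2 (h ▸ hc.hb)
    · exact hxy h

end pairs

/-! ### Counting -/

section count

variable {F : Finset (Finset (Fin n))} {K D : ℕ}

/-- Counting all pairs. -/
lemma count_all (hF : LinearTS F) (hw : WeaklySpreading F) (hn : 33 < n)
    (hD : ∀ v, (star F v).card ≤ D) :
    F.card * F.card - F.card ≤ F.card * ((3 + 180 * K + 486 * K * K) * D) +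
      (High F K).card * (9 * (D * D)) := by
  classical
  have hsub : F.offDiag ⊆ E0 F ∪ sym (E1 F K) ∪ sym (E2 F K) ∪ sym (E3 F K) ∪ R F K := by
    rintro ⟨T1, T2⟩ hT
    rw [mem_offDiag] at hT
    exact class_all hF hw hn hT.1 hT.2.1 hT.2.2
  have h := card_le_card hsub
  rw [offDiag_card] at h
  have h0 := E0_card (F := F) hF hD
  have h1 := sym_card (E1_card (K := K) hF hD)
  have h2 := sym_card (E2_card (K := K) hF hD)
  have h3 := sym_card (E3_card (K := K) hF hD)
  have h4 := R_card (K := K) hF hD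
  have h5 := card_union_le (E0 F ∪ sym (E1 F K) ∪ sym (E2 F K) ∪ sym (E3 F K)) (R F K)
  have h6 := card_union_le (E0 F ∪ sym (E1 F K) ∪ sym (E2 F K)) (sym (E3 F K))
  have h7 := card_union_le (E0 F ∪ sym (E1 F K)) (sym (E2 F K))
  have h8 := card_union_le (E0 F) (sym (E1 F K))
  have h9 : F.card * (3 * D) + 2 * (F.card * (3 * (K * (3 * D)))) +
      2 * (F.card * (3 * (K * (3 * (3 * (3 * (1 * D))))))) +
      2 * (F.card * (3 * (K * (3 * (K * (3 * (3 * (3 * (1 * D)))))))))
      + (High F K).card * ((3 * D) * (3 * D)) = F.card * ((3 + 180 * K + 486 * K * K) * D) +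
      (High F K).card * (9 * (D * D)) := by ring
  omega

/-- Counting the pairs of triples with few high vertices. -/
lemma count_few (hF : LinearTS F) (hw : WeaklySpreading F) (hn : 33 < n)
    (hD : ∀ v, (star F v).card ≤ D) :
    (Few F K).card * (Few F K).card - (Few F K).card ≤ F.card * ((3 + 504 * K) * D) := by
  classical
  have hsub : (Few F K).offDiag ⊆ E0 F ∪ sym (E1 F K) ∪ sym (E4 F K) := by
    rintro ⟨T1, T2⟩ hT
    rw [mem_offDiag] at hT
    exact class_few hF hw hn hT.1 hT.2.1 hT.2.2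
  have h := card_le_card hsub
  rw [offDiag_card] at h
  have h0 := E0_card (F := F) hF hD
  have h1 := sym_card (E1_card (K := K) hF hD)
  have h2 := sym_card (E4_card (K := K) hF hD)
  have h7 := card_union_le (E0 F ∪ sym (E1 F K)) (sym (E4 F K))
  have h8 := card_union_le (E0 F) (sym (E1 F K))
  have h9 : F.card * (3 * D) + 2 * (F.card * (3 * (K * (3 * D)))) +
      2 * (F.card * (3 * (K * (3 * (3 * (1 * (3 * D))))))) = F.card * ((3 + 180 * K) * D) := by
    ring
  have h10 : F.card * ((3 + 180 * K) * D) ≤ F.card * ((3 + 504 * K) * D) := by gcongr; omega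
  omega

/-- Every vertex lies in a triple. -/
lemma exists_star (hw : WeaklySpreading F) (v : Fin n) :
    ∃ T ∈ F, v ∈ T := by
  by_contra hcon
  push Not at hcon
  have h4 := hw.2 F (subset_refl _) hw.1
  have h6 : v ∈ cl F (F.biUnion id) := by rw [h4]; exact mem_univ _
  simp only [cl, mem_filter, mem_univ, true_and] at h6
  have h7 := h6 (univ.erase v) (by
    intro w hw'
    rw [mem_biUnion] at hw'
    obtain ⟨T, hT, hwT⟩ := hw'
    rw [mem_erase]
    exact ⟨fun h => hcon T hT (h ▸ hwT), mem_univ _⟩) (by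
    rw [eq_empty_iff_forall_notMem]
    intro z hz
    simp only [nbhd, mem_filter, mem_univ, true_and] at hz
    obtain ⟨hz1, x, hx, y, hy, hxy, hT⟩ := hz
    have : z = v := by
      by_contra h
      exact hz1 (mem_erase.2 ⟨h, mem_univ _⟩)
    exact hcon _ hT (by simp [this]))
  exact (notMem_erase v univ) h7

/-- Counting low vertices. -/
lemma count_low (hF : LinearTS F) (hw : WeaklySpreading F) :
    (univ.filter fun v => Low F K v).card + (High F K).card ≤
      F.card + 2 * (Few F K).card := by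
  classical
  have hsub : (univ.filter fun v => Low F K v) ⊆ F.biUnion fun T => T.filter fun v => Low F K v := by
    intro v hv
    obtain ⟨T, hT, hvT⟩ := exists_star hw v
    rw [mem_biUnion]
    exact ⟨T, hT, mem_filter.2 ⟨hvT, (mem_filter.1 hv).2⟩⟩
  have h1 : (univ.filter fun v => Low F K v).card ≤
      ∑ T ∈ F, (T.filter fun v => Low F K v).card := (card_le_card hsub).trans card_biUnion_le
  have h2 : ∀ T ∈ F, (T.filter fun v => Low F K v).card +
      (if T ∈ High F K then 1 else 0) ≤ 1 + 2 * (if T ∈ Few F K then 1 else 0) := by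
    intro T hT
    have hc : (T.filter fun v => Low F K v).card + (T.filter fun v => ¬ Low F K v).card = 3 := by
      rw [← hF.1 T hT]
      exact card_filter_add_card_filter_not _
    by_cases hH : T ∈ High F K
    · have : (T.filter fun v => Low F K v).card = 0 := by
        rw [card_eq_zero, filter_eq_empty_iff]
        intro v hv
        exact (mem_filter.1 hH).2 v hv
      rw [if_pos hH]
      omega
    · rw [if_neg hH]
      by_cases hL : T ∈ Few F K
      · rw [if_pos hL]; omega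
      · rw [if_neg hL]
        have : ¬ (T.filter fun v => ¬ Low F K v).card ≤ 1 := fun h =>
          hL (mem_filter.2 ⟨hT, h⟩)
        omega
  have h3 := sum_le_sum h2
  rw [sum_add_distrib, sum_add_distrib, ← mul_sum] at h3
  have h4 : ∑ T ∈ F, (if T ∈ High F K then 1 else 0) = (High F K).card := by
    rw [← card_filter, filter_mem_eq_inter]
    congr 1
    exact inter_eq_right.2 (filter_subset _ _)
  have h5 : ∑ T ∈ F, (if T ∈ Few F K then 1 else 0) = (Few F K).card := by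
    rw [← card_filter, filter_mem_eq_inter]
    congr 1
    exact inter_eq_right.2 (filter_subset _ _)
  have h6 : ∑ _T ∈ F, 1 = F.card := by simp
  rw [h4, h5, h6] at h3
  omega

/-- Counting high vertices. -/
lemma count_high (hF : LinearTS F) :
    (univ.filter fun v => ¬ Low F K v).card * (K + 1) ≤ 3 * F.card := by
  classical
  have h1 : ∑ v : Fin n, (star F v).card = 3 * F.card := by
    unfold star
    simp_rw [card_filter]
    rw [sum_comm]
    have : ∀ T ∈ F, ∑ v : Fin n, (if v ∈ T then 1 else 0) = 3 := by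
      intro T hT
      rw [← hF.1 T hT, ← card_filter]
      congr 1
      ext v
      simp
    rw [sum_congr rfl this]
    simp [mul_comm]
  have h2 : (univ.filter fun v => ¬ Low F K v).card * (K + 1) ≤
      ∑ v ∈ univ.filter (fun v => ¬ Low F K v), (star F v).card := by
    rw [← smul_eq_mul]
    apply card_nsmul_le_sum
    intro v hv
    have := (mem_filter.1 hv).2
    unfold Low at this
    omega
  have h3 : ∑ v ∈ univ.filter (fun v => ¬ Low F K v), (star F v).card ≤
      ∑ v : Fin n, (star F v).card := sum_le_sum_of_subset (filter_subset _ _)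
  omega

/-- The main counting inequality, in real numbers. -/
lemma main_count (hF : LinearTS F) (hw : WeaklySpreading F) (hn : 33 < n) :
    ∃ D s l : ℝ, 1 ≤ D ∧ D * D ≤ 6 * F.card + D ∧ D ≤ F.card ∧ 0 ≤ s ∧ s ≤ F.card ∧ 0 ≤ l ∧
      l ≤ F.card ∧
      (F.card : ℝ) * F.card ≤ F.card + F.card * (141290229 * D) + s * (9 * (D * D)) ∧
      l * l ≤ l + F.card * (271659 * D) ∧
      (n : ℝ) + s ≤ F.card + 2 * l + F.card / 180 := by
  classical
  have hFne : F.Nonempty := card_pos.1 (by have := hw.1; omega)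
  have hne : (univ : Finset (Fin n)).Nonempty := ⟨⟨0, by omega⟩, mem_univ _⟩
  obtain ⟨w, -, hmax⟩ := exists_max_image univ (fun v => (star F v).card) hne
  have hD : ∀ v, (star F v).card ≤ (star F w).card := fun v => hmax v (mem_univ _)
  have h1 : 1 ≤ (star F w).card := by
    obtain ⟨T, hT⟩ := hFne
    have h3 := hF.1 T hT
    obtain ⟨v, hv⟩ := card_pos.1 (show 0 < T.card by omega)
    have : 0 < (star F v).card := card_pos.2 ⟨T, mem_star.2 ⟨hT, hv⟩⟩
    have := hD v
    omega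
  have h2 := deg_bound hF hw (by omega) w
  have hDm : (star F w).card ≤ F.card := card_le_card (filter_subset _ _)
  have h3 := count_all (K := 539) hF hw hn hD
  have h4 := count_few (K := 539) hF hw hn hD
  have h5 := count_low (K := 539) hF hw
  have h6 := count_high (K := 539) hF
  have h7 : (univ.filter fun v : Fin n => Low F 539 v).card +
      (univ.filter fun v : Fin n => ¬ Low F 539 v).card = n := by
    rw [card_filter_add_card_filter_not]; simp
  have hs : (High F 539).card ≤ F.card := card_le_card (filter_subset _ _)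
  have hl : (Few F 539).card ≤ F.card := card_le_card (filter_subset _ _)
  generalize (star F w).card = D at *
  generalize (High F 539).card = s at *
  generalize (Few F 539).card = l at *
  generalize (univ.filter fun v : Fin n => Low F 539 v).card = a at *
  generalize (univ.filter fun v : Fin n => ¬ Low F 539 v).card = b at *
  generalize F.card = m at *
  have h2' : D * D ≤ 6 * m + D := by omega
  have h3' : m * m ≤ m + m * (141290229 * D) + s * (9 * (D * D)) := by
    norm_num at h3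
    omega
  have h4' : l * l ≤ l + m * (271659 * D) := by
    norm_num at h4
    omega
  refine ⟨D, s, l, by exact_mod_cast h1, by exact_mod_cast h2', by exact_mod_cast hDm,
    by positivity, by exact_mod_cast hs, by positivity, by exact_mod_cast hl,
    by exact_mod_cast h3', by exact_mod_cast h4', ?_⟩
  have h5r : (a : ℝ) + s ≤ m + 2 * l := by exact_mod_cast h5
  have h6r : (b : ℝ) * (539 + 1) ≤ 3 * m := by exact_mod_cast h6
  have h7r : (a : ℝ) + b = n := by exact_mod_cast h7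
  linarith

end count

/-- For `n ≥ 10^26` a weakly spreading linear triple system has at least `1.01 n` triples. -/
theorem lower (hn : 10 ^ 26 ≤ n) {F : Finset (Finset (Fin n))} (hF : LinearTS F)
    (hw : WeaklySpreading F) : (101 / 100 : ℝ) * n ≤ F.card := by
  have hn' : (10 : ℝ) ^ 26 ≤ n := by exact_mod_cast hn
  obtain ⟨D, s, l, h1, h2, h3, h4, h5, h6, h7, h8, h9, h10⟩ :=
    main_count hF hw (lt_of_lt_of_le (by norm_num) hn)
  generalize (F.card : ℝ) = m at *
  have hm : (n : ℝ) ≤ 4 * m := by linarith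
  have hm2 : (7 : ℝ) * 10 ^ 24 ≤ m := by
    have : (28 : ℝ) * 10 ^ 24 ≤ 10 ^ 26 := by norm_num
    linarith
  have hm0 : 0 < m := lt_of_lt_of_le (by norm_num) hm2
  have hD : D ≤ m / 10 ^ 12 := by
    by_contra hcon
    push Not at hcon
    have h11 : (m / 10 ^ 12) * (m / 10 ^ 12) < D * D :=
      mul_self_lt_mul_self (by positivity) hcon
    have h12 : (m / 10 ^ 12) * (m / 10 ^ 12) < 7 * m := by linarith
    have h13 : (m / 10 ^ 12) * (m / 10 ^ 12) = m * (m / 10 ^ 24) := by ring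
    rw [h13, mul_comm 7] at h12
    have h14 := lt_of_mul_lt_mul_left h12 hm0.le
    rw [div_lt_iff₀ (by positivity)] at h14
    linarith
  have hmm : m * (7 * 10 ^ 24) ≤ m * m := mul_le_mul_of_nonneg_left hm2 hm0.le
  have hl : l ≤ m / 1000 := by
    by_contra hcon
    push Not at hcon
    have h11 : (m / 1000) * (m / 1000) < l * l := mul_self_lt_mul_self (by positivity) hcon
    have h12 : m * (271659 * D) ≤ m * (271659 * (m / 10 ^ 12)) := by gcongr
    have h13 : m * (271659 * (m / 10 ^ 12)) = (m * m) * (271659 / 10 ^ 12) := by ring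
    have h14 : (m / 1000) * (m / 1000) = (m * m) * (1 / 10 ^ 6) := by ring
    have h15 : m ≤ (m * m) * (1 / 10 ^ 7) := by linarith
    have h16 : (m * m) * (1 / 10 ^ 6) < (m * m) * (1 / 10 ^ 7) + (m * m) * (271659 / 10 ^ 12) := by
      linarith
    have h17 : (0 : ℝ) < m * m := by positivity
    linarith
  have hs : m / 55 ≤ s := by
    by_contra hcon
    push Not at hcon
    have h11 : m * (141290229 * D) ≤ m * (141290229 * (m / 10 ^ 12)) := by gcongr
    have h12 : s * (9 * (D * D)) ≤ (m / 55) * (9 * (6 * m + m / 10 ^ 12)) := by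
      have : D * D ≤ 6 * m + m / 10 ^ 12 := by linarith
      gcongr
    have h13 : m * m ≤ m + (m * m) * (141290229 / 10 ^ 12) +
        (m * m) * ((54 + 9 / 10 ^ 12) / 55) := by
      have e1 : m * (141290229 * (m / 10 ^ 12)) = (m * m) * (141290229 / 10 ^ 12) := by ring
      have e2 : (m / 55) * (9 * (6 * m + m / 10 ^ 12)) = (m * m) * ((54 + 9 / 10 ^ 12) / 55) := by
        ring
      linarith
    have h15 : m ≤ (m * m) * (1 / 10 ^ 7) := by linarith
    have h17 : (0 : ℝ) < m * m := by positivity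
    linarith
  linarith

/-- `C = 1.01` works for all large `n`, and consequently `liminf ξ_wsp(n) / n > 1`. -/
theorem result :
    (∃ C : ℝ, 1 < C ∧ ∀ᶠ n : ℕ in Filter.atTop, ∀ F : Finset (Finset (Fin n)), LinearTS F →
      WeaklySpreading F → C * n ≤ F.card) ∧
    1 < Filter.liminf (fun n : ℕ => ((xi n : ℕ∞) : ENNReal) / (n : ENNReal)) Filter.atTop := by
  refine ⟨⟨101 / 100, by norm_num, ?_⟩, ?_⟩
  · filter_upwards [Filter.eventually_ge_atTop (10 ^ 26)] with n hn F hF hw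
    exact lower hn hF hw
  · have h1 : ∀ᶠ n : ℕ in Filter.atTop,
        ENNReal.ofReal (101 / 100) ≤ ((xi n : ℕ∞) : ENNReal) / (n : ENNReal) := by
      filter_upwards [Filter.eventually_ge_atTop (10 ^ 26)] with n hn
      have hn0 : 0 < n := lt_of_lt_of_le (by norm_num) hn
      rw [ENNReal.le_div_iff_mul_le (Or.inl (by exact_mod_cast hn0.ne'))
        (Or.inl (ENNReal.natCast_ne_top n))]
      have h2 : (⌈(101 / 100 : ℝ) * n⌉₊ : ℕ∞) ≤ xi n := by
        unfold xi
        refine le_iInf fun F => le_iInf fun hF => le_iInf fun hw => ?_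
        exact_mod_cast Nat.ceil_le.2 (lower hn hF hw)
      have h3 : (((⌈(101 / 100 : ℝ) * n⌉₊ : ℕ) : ℕ∞) : ENNReal) ≤ ((xi n : ℕ∞) : ENNReal) :=
        ENat.toENNReal_le.2 h2
      refine le_trans ?_ h3
      rw [ENat.toENNReal_coe]
      have h4 : ENNReal.ofReal (101 / 100) * (n : ENNReal) = ENNReal.ofReal (101 / 100 * n) := by
        rw [ENNReal.ofReal_mul (by norm_num), ENNReal.ofReal_natCast]
      rw [h4]
      refine ENNReal.ofReal_le_of_le_toReal ?_
      rw [ENNReal.toReal_natCast]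
      exact Nat.le_ceil _
    have h5 : ENNReal.ofReal (101 / 100) ≤
        Filter.liminf (fun n : ℕ => ((xi n : ℕ∞) : ENNReal) / (n : ENNReal)) Filter.atTop :=
      Filter.le_liminf_of_le (by isBoundedDefault) h1
    refine lt_of_lt_of_le ?_ h5
    rw [← ENNReal.ofReal_one]
    exact (ENNReal.ofReal_lt_ofReal_iff (by norm_num)).2 (by norm_num)

end Pool.Agent.Results.MP_9978f8_co.AboveOne
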